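import Pool.Agent.H39.VQ.Targets

/-!
# MP_e21eee_nt: module FT, Fourier analysis on a finite abelian group
-/

set_option autoImplicit false

open Finset

namespace Pool.Agent.H58.VQ

open Pool.Agent.H39.VQ

variable {G : Type} [AddCommGroup G] [Fintype G]

theorem conj_eq (χ : AddChar G ℂ) (g : G) : (starRingEnd ℂ) (χ g) = χ (-g) :=
  (AddChar.map_neg_eq_conj χ g).symm

theorem ft_inv (f : G → ℂ) (g : G) :
    ∑ χ : AddChar G ℂ, χ g * ft f χ = (Fintype.card G : ℂ) * f g := by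
  classical
  unfold ft
  simp_rw [Finset.mul_sum]
  rw [Finset.sum_comm]
  have h1 : ∀ g' : G, ∑ χ : AddChar G ℂ, χ g * ((starRingEnd ℂ) (χ g') * f g') =
      (if g = g' then (Fintype.card G : ℂ) else 0) * f g' := by
    intro g'
    have h2 : ∀ χ : AddChar G ℂ, χ g * ((starRingEnd ℂ) (χ g') * f g') = χ (g - g') * f g' := by
      intro χ
      rw [conj_eq, ← mul_assoc, ← AddChar.map_add_eq_mul, sub_eq_add_neg]
    simp_rw [h2]
    rw [← Finset.sum_mul, AddChar.sum_apply_eq_ite]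
    simp only [sub_eq_zero]
  simp_rw [h1]
  simp [ite_mul]

theorem card_ne : (Fintype.card G : ℂ) ≠ 0 := by
  have : 0 < Fintype.card G := Fintype.card_pos_iff.2 ⟨0⟩
  exact_mod_cast this.ne'

theorem ft_parseval (f f' : G → ℂ) : ∑ g, f g * (starRingEnd ℂ) (f' g) =
    (Fintype.card G : ℂ)⁻¹ * ∑ χ : AddChar G ℂ, ft f χ * (starRingEnd ℂ) (ft f' χ) := by
  have h1 : ∑ χ : AddChar G ℂ, ft f χ * (starRingEnd ℂ) (ft f' χ) =
      ∑ g, (starRingEnd ℂ) (f' g) * ((Fintype.card G : ℂ) * f g) := by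
    have h2 : ∀ χ : AddChar G ℂ, ft f χ * (starRingEnd ℂ) (ft f' χ) =
        ∑ g, (starRingEnd ℂ) (f' g) * (χ g * ft f χ) := by
      intro χ
      have h3 : (starRingEnd ℂ) (ft f' χ) = ∑ g, χ g * (starRingEnd ℂ) (f' g) := by
        unfold ft
        rw [map_sum]
        refine Finset.sum_congr rfl fun g _ => ?_
        rw [map_mul, Complex.conj_conj]
      rw [h3, Finset.mul_sum]
      refine Finset.sum_congr rfl fun g _ => ?_
      ring
    simp_rw [h2]
    rw [Finset.sum_comm]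
    refine Finset.sum_congr rfl fun g _ => ?_
    rw [← Finset.mul_sum, ft_inv]
  rw [h1, Finset.mul_sum]
  refine Finset.sum_congr rfl fun g _ => ?_
  have hc := card_ne (G := G)
  field_simp

theorem ft_shift (f : G → ℂ) (u : G) (χ : AddChar G ℂ) :
    ft (fun g => f (g + u)) χ = χ u * ft f χ := by
  unfold ft
  rw [Finset.mul_sum]
  refine Fintype.sum_equiv (Equiv.addRight u) _ _ fun g => ?_
  have h1 : (Equiv.addRight u) g = g + u := rfl
  rw [h1, conj_eq, conj_eq, ← mul_assoc, ← AddChar.map_add_eq_mul]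
  have h2 : u + -(g + u) = -g := by abel
  rw [h2]

theorem ft_sum (ι : Type) (s : Finset ι) (f : ι → G → ℂ) (χ : AddChar G ℂ) :
    ft (fun g => ∑ i ∈ s, f i g) χ = ∑ i ∈ s, ft (f i) χ := by
  unfold ft
  simp_rw [Finset.mul_sum]
  rw [Finset.sum_comm]

theorem ft_mul_ne (f f' : G → ℂ) (χ : AddChar G ℂ)
    (h : ft (fun g => f g * (starRingEnd ℂ) (f' g)) χ ≠ 0) :
    ∃ ψ : AddChar G ℂ, ft f (χ * ψ) ≠ 0 ∧ ft f' ψ ≠ 0 := by
  by_contra hcon
  push Not at hcon
  apply h
  have hc := card_ne (G := G)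
  have h1 : (Fintype.card G : ℂ) * ft (fun g => f g * (starRingEnd ℂ) (f' g)) χ =
      ∑ ψ : AddChar G ℂ, (starRingEnd ℂ) (ft f' ψ) * ft f (χ * ψ) := by
    have h2 : ∀ g, (Fintype.card G : ℂ) * (starRingEnd ℂ) (f' g) =
        ∑ ψ : AddChar G ℂ, (starRingEnd ℂ) (ψ g) * (starRingEnd ℂ) (ft f' ψ) := by
      intro g
      have h3 := congrArg (starRingEnd ℂ) (ft_inv f' g)
      rw [map_sum, map_mul, Complex.conj_natCast] at h3
      rw [← h3]
      exact Finset.sum_congr rfl fun ψ _ => by rw [map_mul]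
    have h4 : (Fintype.card G : ℂ) * ft (fun g => f g * (starRingEnd ℂ) (f' g)) χ =
        ∑ g, ∑ ψ : AddChar G ℂ, (starRingEnd ℂ) (ft f' ψ) *
          ((starRingEnd ℂ) ((χ * ψ) g) * f g) := by
      show (Fintype.card G : ℂ) * ∑ g, (starRingEnd ℂ) (χ g) * (f g * (starRingEnd ℂ) (f' g)) = _
      rw [Finset.mul_sum]
      refine Finset.sum_congr rfl fun g _ => ?_
      have h5 : (Fintype.card G : ℂ) * ((starRingEnd ℂ) (χ g) * (f g * (starRingEnd ℂ) (f' g))) =
          (starRingEnd ℂ) (χ g) * f g * ((Fintype.card G : ℂ) * (starRingEnd ℂ) (f' g)) := by ring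
      rw [h5, h2, Finset.mul_sum]
      refine Finset.sum_congr rfl fun ψ _ => ?_
      rw [AddChar.mul_apply, map_mul]
      ring
    rw [h4, Finset.sum_comm]
    refine Finset.sum_congr rfl fun ψ _ => ?_
    rw [← Finset.mul_sum]
    rfl
  have h6 : ∑ ψ : AddChar G ℂ, (starRingEnd ℂ) (ft f' ψ) * ft f (χ * ψ) = 0 := by
    refine Finset.sum_eq_zero fun ψ _ => ?_
    by_cases h7 : ft f (χ * ψ) = 0
    · rw [h7, mul_zero]
    · rw [hcon ψ h7, map_zero, zero_mul]
  rw [h6] at h1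
  exact (mul_eq_zero.1 h1).resolve_left hc

theorem pf_FT : V_FT := by
  intro G _ _
  refine ⟨ft_parseval, fun f => ?_, fun f hf g => ?_, ft_shift, ft_sum, ft_mul_ne⟩
  · have h1 := ft_parseval f f
    simp_rw [Complex.mul_conj'] at h1
    apply Complex.ofReal_injective
    push_cast
    exact h1
  · have h1 := ft_inv f g
    simp_rw [hf, mul_zero, Finset.sum_const_zero] at h1
    exact (mul_eq_zero.1 h1.symm).resolve_left card_ne

end Pool.Agent.H58.VQ
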