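import Pool.Agent.H39.VQ.Targets

/-!
# MP_e21eee_nt: module LO, local orthogonality
-/

set_option autoImplicit false

open Finset

namespace Pool.Agent.H58.VQ

open Pool.Agent.H11.CV
open Pool.Agent.H39.VQ

theorem lo_am_add {K : Type} [Field K] {G : Type} [AddCommGroup G] (M : ℕ) (u : G)
    (f f' : G → K) : am M u (fun g => f g + f' g) = fun g => am M u f g + am M u f' g := by
  funext g
  unfold am
  rw [Finset.sum_add_distrib, mul_add]

theorem lo_AA_add {K : Type} [Field K] {G : Type} [AddCommGroup G] (p L j l : ℕ) (u0 u1 u2 : G)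
    (c : ℤ) (f f' : G → K) (g : G) :
    AA p L j l u0 u1 u2 c (fun g => f g + f' g) g =
      AA p L j l u0 u1 u2 c f g + AA p L j l u0 u1 u2 c f' g := by
  unfold AA
  rw [lo_am_add, lo_am_add, lo_am_add]

theorem lo_ft_am (hFT : V_FT) {G : Type} [AddCommGroup G] [Fintype G] (M : ℕ) (u : G)
    (f : G → ℂ) (χ : AddChar G ℂ) :
    ft (am M u f) χ = ((M : ℂ)⁻¹ * ∑ t ∈ range M, χ (t • u)) * ft f χ := by
  obtain ⟨-, -, -, h4, h5, -⟩ := hFT G
  have h1 : ft (am M u f) χ = (M : ℂ)⁻¹ * ft (fun g => ∑ t ∈ range M, f (g + t • u)) χ := by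
    unfold ft
    rw [Finset.mul_sum]
    refine Finset.sum_congr rfl fun g _ => ?_
    unfold am
    ring
  rw [h1, h5 ℕ (range M) (fun t g => f (g + t • u)) χ]
  simp_rw [h4]
  rw [← Finset.sum_mul, mul_assoc]

theorem lo_ft_AA (hFT : V_FT) {G : Type} [AddCommGroup G] [Fintype G] (p L j l : ℕ)
    (u0 u1 u2 : G) (c : ℤ) (f : G → ℂ) (χ : AddChar G ℂ) (h : ft f χ = 0) :
    ft (AA p L j l u0 u1 u2 c f) χ = 0 := by
  unfold AA
  rw [lo_ft_am hFT, lo_ft_am hFT, lo_ft_am hFT, h, mul_zero, mul_zero, mul_zero]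

/-- exact power of `p` -/
theorem lo_exact {p : ℕ} (b : ℕ) (n : ℤ) (h : ¬ (p : ℤ) ^ b ∣ n) :
    ∃ i < b, (p : ℤ) ^ i ∣ n ∧ ¬ (p : ℤ) ^ (i + 1) ∣ n := by
  induction b with
  | zero => exact absurd (by simp) h
  | succ b ih =>
    by_cases h1 : (p : ℤ) ^ b ∣ n
    · exact ⟨b, by omega, h1, h⟩
    · obtain ⟨i, hi, h2⟩ := ih h1
      exact ⟨i, by omega, h2⟩

theorem pf_LO (hFT : V_FT) (hFP : V_FP) (hN1 : V_N1) (hN6 : V_N6) (hAV : V_AV)
    (hAF : V_AF) : V_LO := by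
  classical
  intro p L j l b ε c S G _ _ u0 u1 u2 f hp hL hj hb hl hbl hε hK hSc hSS g
  obtain ⟨-, -, -, -, hlin, hcast⟩ := hAV p L j l c G u0 u1 u2 hp.one_lt
  obtain ⟨-, -, hF3, -, -, -⟩ := hFT G
  -- the averages of the off-diagonal terms vanish
  have hzero : ∀ s ∈ S, ∀ s' ∈ S, s ≠ s' → ∀ g,
      AA p L j l u0 u1 u2 c (fun g => f s g * (starRingEnd ℂ) (f s' g)) g = 0 := by
    intro s hs s' hs' hne
    refine hF3 _ fun χ => ?_
    by_cases h0 : ft (fun g => f s g * (starRingEnd ℂ) (f s' g)) χ = 0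
    · exact lo_ft_AA hFT p L j l u0 u1 u2 c _ χ h0
    · obtain ⟨⟨x, y, z, hxyz⟩, hA⟩ := hFP p L b b ε ε _ _ G u0 u1 u2 _ _ hp.one_lt hL hb hb
        (hK s hs) (hK s' hs') χ h0
      obtain ⟨x', y', z', hA1, hA2⟩ := hA x y z hxyz
      obtain ⟨i, hib, hi1, hi2⟩ := lo_exact b _ (hSS s hs s' hs' hne)
      have hD := hN1 p b i ε s s' x y z x' y' z' hp hε hib hi1 hi2 hA1 hA2 s (by simp)
      have hnU : ¬ Us p j l c x y z := by
        intro hU
        have hU' := hN6 p j l l c s x y z le_rfl hl (hSc s hs) hU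
        have h1 : (p : ℤ) ^ (i + 1) ∣ y - s * x :=
          (pow_dvd_pow (p : ℤ) (by omega : i + 1 ≤ 2 * j - l)).trans hU'.2.1
        exact hD.2.2.1 h1
      exact (hAF p L j l c x y z G u0 u1 u2 _ χ hp.one_lt hL hj hl hxyz).2 hnU
  apply Complex.ofReal_injective
  rw [← hcast, ← hcast]
  have h1 : (fun g => ((‖∑ s ∈ S, f s g‖ ^ 2 : ℝ) : ℂ)) = fun g =>
      (((∑ s ∈ S, ‖f s g‖ ^ 2 : ℝ) : ℂ)) +
        ∑ s ∈ S, ∑ s' ∈ S.erase s, f s g * (starRingEnd ℂ) (f s' g) := by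
    funext g
    push_cast
    rw [← Complex.mul_conj', map_sum, Finset.sum_mul_sum, ← Finset.sum_add_distrib]
    refine Finset.sum_congr rfl fun s hs => ?_
    rw [← Complex.mul_conj', Finset.add_sum_erase S (fun s' => f s g * (starRingEnd ℂ) (f s' g)) hs]
  rw [h1, lo_AA_add]
  have h2 : AA p L j l u0 u1 u2 c
      (fun g => ∑ s ∈ S, ∑ s' ∈ S.erase s, f s g * (starRingEnd ℂ) (f s' g)) g = 0 := by
    rw [hlin ℂ S (fun s g => ∑ s' ∈ S.erase s, f s g * (starRingEnd ℂ) (f s' g)) g]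
    refine Finset.sum_eq_zero fun s hs => ?_
    rw [hlin ℂ (S.erase s) (fun s' g => f s g * (starRingEnd ℂ) (f s' g)) g]
    refine Finset.sum_eq_zero fun s' hs' => ?_
    obtain ⟨h3, h4⟩ := Finset.mem_erase.1 hs'
    exact hzero s hs s' h4 (Ne.symm h3) g
  rw [h2, add_zero]

end Pool.Agent.H58.VQ
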