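import Pool.Agent.H39.VQ.Targets

/-!
# MP_e21eee_nt: module M1, the `L^4` identity of one node
-/

set_option autoImplicit false

open Finset

namespace Pool.Agent.H58.VQ

open Pool.Agent.H11.CV
open Pool.Agent.H39.VQ

theorem sum_mul_conj_sum {ι : Type} [DecidableEq ι] (s : Finset ι) (f : ι → ℂ) :
    (∑ i ∈ s, f i) * (starRingEnd ℂ) (∑ i ∈ s, f i) =
      ∑ i ∈ s, f i * (starRingEnd ℂ) (f i) +
        ∑ q ∈ s.offDiag, f q.1 * (starRingEnd ℂ) (f q.2) := by
  rw [map_sum, Finset.sum_mul_sum, ← Finset.sum_product', ← Finset.diag_union_offDiag,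
    Finset.sum_union (Finset.disjoint_diag_offDiag s), Finset.sum_diag]

theorem sum_sq_offDiag {ι : Type} [DecidableEq ι] (s : Finset ι) (a : ι → ℝ) :
    (∑ i ∈ s, a i) ^ 2 = ∑ i ∈ s, a i ^ 2 + ∑ q ∈ s.offDiag, a q.1 * a q.2 := by
  rw [pow_two, Finset.sum_mul_sum, ← Finset.sum_product', ← Finset.diag_union_offDiag,
    Finset.sum_union (Finset.disjoint_diag_offDiag s), Finset.sum_diag]
  simp only [pow_two]

theorem eq_of_dvd_sub {p a b : ℕ} (ha : a < p) (hb : b < p) (h : (p : ℤ) ∣ (a : ℤ) - b) :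
    a = b := by
  have h1 : (b : ℤ) ≡ a [ZMOD p] := Int.modEq_iff_dvd.2 h
  have h2 : b ≡ a [MOD p] := Int.natCast_modEq_iff.1 h1
  exact (Nat.ModEq.eq_of_lt_of_lt h2 hb ha).symm

theorem pf_M1 (hFT : V_FT) (hFP : V_FP) (hN4 : V_N4) : V_M1 := by
  classical
  intro p L j ε t G _ _ u0 u1 u2 f hp hp2 hL hε hK
  obtain ⟨hF1, -, -, -, -, -⟩ := hFT G
  set P : ℕ × ℕ → G → ℂ := fun q g => f q.1 g * (starRingEnd ℂ) (f q.2 g) with hP
  -- orthogonality
  have horth : ∀ q ∈ (range p).offDiag, ∀ q' ∈ (range p).offDiag, q ≠ q' →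
      ∑ g, P q g * (starRingEnd ℂ) (P q' g) = 0 := by
    intro q hq q' hq' hne
    obtain ⟨h1, h2, h12⟩ := Finset.mem_offDiag.1 hq
    obtain ⟨h3, h4, h34⟩ := Finset.mem_offDiag.1 hq'
    rw [Finset.mem_range] at h1 h2 h3 h4
    rw [hF1 (P q) (P q')]
    have hz : ∀ χ : AddChar G ℂ, ft (P q) χ * (starRingEnd ℂ) (ft (P q') χ) = 0 := by
      intro χ
      by_contra hcon
      have hc1 : ft (P q) χ ≠ 0 := fun h => hcon (by rw [h, zero_mul])
      have hc2 : ft (P q') χ ≠ 0 := fun h => hcon (by rw [h, map_zero, mul_zero])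
      obtain ⟨⟨x, y, z, hxyz⟩, hA⟩ := hFP p L (j + 1) (j + 1) ε ε _ _ G u0 u1 u2 _ _ hp.one_lt
        (by omega) (by omega) (by omega) (hK q.1 h1) (hK q.2 h2) χ hc1
      obtain ⟨-, hB⟩ := hFP p L (j + 1) (j + 1) ε ε _ _ G u0 u1 u2 _ _ hp.one_lt
        (by omega) (by omega) (by omega) (hK q'.1 h3) (hK q'.2 h4) χ hc2
      obtain ⟨x', y', z', hA1, hA2⟩ := hA x y z hxyz
      obtain ⟨x'', y'', z'', hB1, hB2⟩ := hB x y z hxyz
      have h5 := hN4 p j ε t ![(q.1 : ℤ), q.2, q'.1, q'.2] ![x + x', x', x + x'', x'']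
        ![y + y', y', y + y'', y''] ![z + z', z', z + z'', z''] hp hp2 hε (by
          intro i
          fin_cases i
          · exact hA2
          · exact hA1
          · exact hB2
          · exact hB1) (by
          have : (![x + x', x', x + x'', x''] : Fin 4 → ℤ) 0 - ![x + x', x', x + x'', x''] 1 -
            (![x + x', x', x + x'', x''] 2 - ![x + x', x', x + x'', x''] 3) = 0 := by
            simp
          rw [this]
          exact dvd_zero _) (by
          have : (![y + y', y', y + y'', y''] : Fin 4 → ℤ) 0 - ![y + y', y', y + y'', y''] 1 -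
            (![y + y', y', y + y'', y''] 2 - ![y + y', y', y + y'', y''] 3) = 0 := by
            simp
          rw [this]
          exact dvd_zero _) (by
          have : (![z + z', z', z + z'', z''] : Fin 4 → ℤ) 0 - ![z + z', z', z + z'', z''] 1 -
            (![z + z', z', z + z'', z''] 2 - ![z + z', z', z + z'', z''] 3) = 0 := by
            simp
          rw [this]
          exact dvd_zero _)
      rcases h5 with ⟨h5, h6⟩ | ⟨h5, -⟩
      · have h7 : q.1 = q'.1 := eq_of_dvd_sub h1 h3 h5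
        have h8 : q.2 = q'.2 := eq_of_dvd_sub h2 h4 h6
        exact hne (Prod.ext h7 h8)
      · exact h12 (eq_of_dvd_sub h1 h2 h5)
    simp_rw [hz, Finset.sum_const_zero, mul_zero]
  -- the off-diagonal part
  have hD : ∀ g, ((‖∑ i ∈ range p, f i g‖ ^ 2 - ∑ i ∈ range p, ‖f i g‖ ^ 2 : ℝ) : ℂ) =
      ∑ q ∈ (range p).offDiag, P q g := by
    intro g
    have h1 := sum_mul_conj_sum (range p) (fun i => f i g)
    rw [Complex.mul_conj'] at h1
    simp_rw [Complex.mul_conj'] at h1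
    push_cast
    rw [h1]
    ring
  have hDc : ∀ g, (((‖∑ i ∈ range p, f i g‖ ^ 2 - ∑ i ∈ range p, ‖f i g‖ ^ 2) ^ 2 : ℝ) : ℂ) =
      ∑ q ∈ (range p).offDiag, ∑ q' ∈ (range p).offDiag, P q g * (starRingEnd ℂ) (P q' g) := by
    intro g
    rw [Complex.ofReal_pow, pow_two]
    nth_rewrite 2 [← Complex.conj_ofReal]
    rw [hD g, map_sum, Finset.sum_mul_sum]
  have hL1 : ((∑ g, (‖∑ i ∈ range p, f i g‖ ^ 2 - ∑ i ∈ range p, ‖f i g‖ ^ 2) ^ 2 : ℝ) : ℂ) =
      ∑ q ∈ (range p).offDiag, ∑ g, P q g * (starRingEnd ℂ) (P q g) := by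
    rw [Complex.ofReal_sum]
    simp_rw [hDc]
    rw [Finset.sum_comm]
    refine Finset.sum_congr rfl fun q hq => ?_
    rw [Finset.sum_comm, Finset.sum_eq_single q]
    · intro q' hq' hne
      exact horth q hq q' hq' hne.symm
    · intro h
      exact absurd hq h
  have hL2 : ∑ g, (‖∑ i ∈ range p, f i g‖ ^ 2 - ∑ i ∈ range p, ‖f i g‖ ^ 2) ^ 2 =
      ∑ q ∈ (range p).offDiag, ∑ g, ‖f q.1 g‖ ^ 2 * ‖f q.2 g‖ ^ 2 := by
    apply Complex.ofReal_injective
    rw [hL1]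
    push_cast
    refine Finset.sum_congr rfl fun q _ => Finset.sum_congr rfl fun g _ => ?_
    rw [Complex.mul_conj']
    simp only [hP]
    rw [norm_mul, RCLike.norm_conj]
    push_cast
    ring
  rw [hL2, Finset.sum_comm]
  have hR : ∀ g, (∑ i ∈ range p, ‖f i g‖ ^ 2) ^ 2 = ∑ i ∈ range p, ‖f i g‖ ^ 4 +
      ∑ q ∈ (range p).offDiag, ‖f q.1 g‖ ^ 2 * ‖f q.2 g‖ ^ 2 := by
    intro g
    rw [sum_sq_offDiag (range p) (fun i => ‖f i g‖ ^ 2)]
    have h4 : ∑ i ∈ range p, (‖f i g‖ ^ 2) ^ 2 = ∑ i ∈ range p, ‖f i g‖ ^ 4 :=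
      Finset.sum_congr rfl fun i _ => by ring
    rw [h4]
  simp_rw [hR]
  rw [Finset.sum_add_distrib, Finset.sum_comm (s := (univ : Finset G)) (t := range p)]
  ring

end Pool.Agent.H58.VQ
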